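import Pool.Agent.P.MP_8e531e_co.Q.Low

/-! The order of the largest fractional chromatic number with a given clique average. -/

namespace Pool.Agent.Results.MP_8e531e_co.ExtremalOrder

open Pool.Agent.P.MP_8e531e_co.Q

theorem result :
    Asymptotics.IsTheta Filter.atTop maxChi (fun g : ℝ => g ^ 2 / Real.log g) :=
  maxChi_theta

end Pool.Agent.Results.MP_8e531e_co.ExtremalOrder
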