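import Pool.Agent.P.MP_8e531e_co.H.B

/-! The fractional chromatic number against the clique averages of all spanning subgraphs. -/

namespace Pool.Agent.Results.MP_8e531e_co.HereditaryBound

open Pool.Agent.P.MP_8e531e_co.Q

theorem result (ε : ℝ) (hε : 0 < ε) : ∃ C : ℝ, ∀ (V : Type) [Fintype V] [DecidableEq V]
    [Nonempty V] (G : SimpleGraph V) (g : ℝ),
    (∀ (H : SimpleGraph V) [DecidableRel H.Adj], H ≤ G → GammaLe H g) →
      chiF G ≤ (1 + ε) * g + C :=
  Pool.Agent.P.MP_8e531e_co.H.main ε hε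

end Pool.Agent.Results.MP_8e531e_co.HereditaryBound
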